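import Pool.Agent.H63.WT.TC

/-!
# Row ALT: index one, one of the two classes is constant
-/

set_option autoImplicit false

open Polynomial Matrix Pool.Agent.H63.WT

namespace Pool.Agent.H49.WT

theorem cop_lin {F : Type} [Field F] {R : F[X]} {t : F} (h : eval t R ≠ 0) :
    IsCoprime R (X - C t) := by
  refine IsCoprime.symm ((irreducible_X_sub_C t).coprime_iff_not_dvd.mpr fun hd => h ?_)
  rwa [dvd_iff_isRoot] at hd

/-- the sum of the values at the four points of a curve section -/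
theorem four_sum {F : Type} [Field F] {A B R M : F[X]}
    (v1 : ∀ x : WG F, I2 x → x + x = 0) (hq : I2 (qc A B M))
    (hadd : ∀ T T' : F[X], T.Monic → T'.Monic → IsCoprime R T → IsCoprime R T' →
      cc A B R M (T * T') = cc A B R M T + cc A B R M T')
    (a b c s : F) (ha : eval a R ≠ 0) (hb : eval b R ≠ 0) (hc : eval c R ≠ 0)
    (hs : eval s R ≠ 0)
    (h0 : sy R M ((X - C a) * (X - C b) * (X - C c) * (X - C s)) = 0) :
    cc A B R M (X - C a) + cc A B R M (X - C b) + cc A B R M (X - C c) +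
      cc A B R M (X - C s) = 0 := by
  have ma := monic_X_sub_C a
  have mb := monic_X_sub_C b
  have mc := monic_X_sub_C c
  have ms := monic_X_sub_C s
  have hd : ((X - C a) * (X - C b) * (X - C c) * (X - C s)).natDegree = 4 := by
    rw [((ma.mul mb).mul mc).natDegree_mul ms, (ma.mul mb).natDegree_mul mc,
      ma.natDegree_mul mb, natDegree_X_sub_C, natDegree_X_sub_C, natDegree_X_sub_C,
      natDegree_X_sub_C]
  rw [← hadd _ _ ma mb (cop_lin ha) (cop_lin hb),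
    ← hadd _ _ (ma.mul mb) mc ((cop_lin ha).mul_right (cop_lin hb)) (cop_lin hc),
    ← hadd _ _ ((ma.mul mb).mul mc) ms
      (((cop_lin ha).mul_right (cop_lin hb)).mul_right (cop_lin hc)) (cop_lin hs)]
  unfold cc
  rw [hd, h0, add_zero]
  have h2 : 4 • qc A B M = (qc A B M + qc A B M) + (qc A B M + qc A B M) := by
    rw [show (4 : ℕ) = 1 + 1 + 1 + 1 by rfl, add_nsmul, add_nsmul, add_nsmul, one_nsmul]
    abel
  rw [h2, v1 _ hq, add_zero]

open Classical in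
theorem pf_ALT (hFLN : T_FLN) (hSUM : T_SUM) (hPTB : T_PTB) (hCLC : T_CLC) (hFPT : T_FPT)
    (hNTR : T_NTR) (hIV : T_IV) (hCAD : T_CAD) (hLAL : T_LAL) (hEU9 : T_EU9) : T_ALT := by
  intro F _ _ _ _ m M0 P1 P2 R1 R2 U1 U2 hD hFail hpt
  have hF : LA F := hLAL F
  have h2 : (2 : F) ≠ 0 := hF.1
  obtain ⟨hN, hn⟩ := hF.2 F inferInstance
  obtain ⟨v1, v2, -, -⟩ := hIV F h2 hN hn
  have hCm : ∀ A : F[X], IsCoprime A (C m) := fun A => ⟨0, C m⁻¹, by
    rw [zero_mul, zero_add, ← C_mul, inv_mul_cancel₀ hD.m0, C_1]⟩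
  have hcop : IsCoprime (P1 * P2) (C m * M0) := (hCm _).mul_right hD.cop
  have hcop' : IsCoprime (P2 * P1) (C m * M0) := by rw [mul_comm]; exact hcop
  have hsep' : (P2 * P1).Separable := by rw [mul_comm]; exact hD.sep
  obtain ⟨n1, i1, a1, -⟩ := hCAD F hF P1 P2 R1 U1 (C m * M0) hD.mon1 hD.mon2 hD.monR1 hD.monU1
    hD.fac1 hD.sep hcop hD.sq1 hD.nn1
  obtain ⟨n2, i2, a2, -⟩ := hCAD F hF P2 P1 R2 U2 (C m * M0) hD.mon2 hD.mon1 hD.monR2 hD.monU2
    hD.fac2 hsep' hcop' hD.sq2 hD.nn2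
  have q1 : I2 (qc P1 P2 (C m * M0)) := ((hEU9 F h2).2.1 P1 P2 (C m * M0) hD.mon1
    hD.sep.isCoprime hcop.of_mul_left_left).mpr hD.nn1
  have q2 : I2 (qc P2 P1 (C m * M0)) := ((hEU9 F h2).2.1 P2 P1 (C m * M0) hD.mon2
    hD.sep.isCoprime.symm hcop.of_mul_left_right).mpr hD.nn2
  have sR1 : R1.Separable := by
    have := hD.sep.of_mul_left
    rw [hD.fac1] at this
    exact this.of_mul_left
  have sR2 : R2.Separable := by
    have := hD.sep.of_mul_right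
    rw [hD.fac2] at this
    exact this.of_mul_left
  have cR1 : IsCoprime R1 (C m * M0) := by
    have := hcop.of_mul_left_left
    rw [hD.fac1] at this
    exact this.of_mul_left_left
  have cR2 : IsCoprime R2 (C m * M0) := by
    have := hcop.of_mul_left_right
    rw [hD.fac2] at this
    exact this.of_mul_left_left
  have fln := hFLN F m M0 P1 P2 R1 R2 U1 U2 hD hFail
  by_contra hcon
  push Not at hcon
  obtain ⟨⟨ta0, sqa0, ca0⟩, ⟨tb0, sqb0, cb0⟩⟩ := hcon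
  obtain ⟨ea, hea, hca⟩ := (hCLC F P1 P2 R1 (C m * M0) hD.monR1 sR1 cR1 n1).1 ta0
    (fln ta0 sqa0).1
  obtain ⟨eb, heb, hcb⟩ := (hCLC F P2 P1 R2 (C m * M0) hD.monR2 sR2 cR2 n2).1 tb0
    (fln tb0 sqb0).2.1
  obtain ⟨hp, -⟩ := hPTB F m M0 hD.m0 hD.mon0 hD.sep0 hD.deg0
  obtain ⟨ta, -, da, na, sqa⟩ := hp ta0 ea hea sqa0 ∅
  obtain ⟨tb, hbz, db, nb, sqb⟩ := hp tb0 eb heb sqb0 {ta}
  obtain ⟨tc, hcz, nc, -, sqc, sumc⟩ := hSUM F m M0 P1 P2 R1 R2 U1 U2 hD hpt {ta, tb}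
  have c1a : cc P1 P2 R1 (C m * M0) (X - C ta) = 0 := by rw [(hca ta da).2, ca0]
  have c2b : cc P2 P1 R2 (C m * M0) (X - C tb) = 0 := by rw [(hcb tb db).2, cb0]
  obtain ⟨ra1, ra2, fa⟩ := fln ta sqa
  obtain ⟨rb1, rb2, fb⟩ := fln tb sqb
  obtain ⟨rc1, rc2, fc⟩ := fln tc sqc
  have c2a : cc P2 P1 R2 (C m * M0) (X - C ta) ≠ 0 := fun h => fa ⟨c1a, h⟩
  have c1b : cc P1 P2 R1 (C m * M0) (X - C tb) ≠ 0 := fun h => fb ⟨h, c2b⟩
  have c1c : cc P1 P2 R1 (C m * M0) (X - C tc) ≠ 0 := fun h => fc ⟨h, by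
    rw [h, zero_add] at sumc
    exact sumc⟩
  have c2c : cc P2 P1 R2 (C m * M0) (X - C tc) ≠ 0 := fun h => fc ⟨by
    rw [h, add_zero] at sumc
    exact sumc, h⟩
  have hab : ta ≠ tb := fun h => hbz (by rw [h]; exact Finset.mem_singleton_self _)
  have hac : ta ≠ tc := fun h => hcz (by rw [h]; exact Finset.mem_insert_self _ _)
  have hbc : tb ≠ tc := fun h => hcz (by
    rw [h]; exact Finset.mem_insert_of_mem (Finset.mem_singleton_self _))
  obtain ⟨ya, hya⟩ := sqa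
  obtain ⟨yb, hyb⟩ := sqb
  obtain ⟨yc, hyc⟩ := sqc
  have nya : ya ≠ 0 := fun h => na (by rw [hya, h, zero_mul])
  have nyb : yb ≠ 0 := fun h => nb (by rw [hyb, h, zero_mul])
  have nyc : yc ≠ 0 := fun h => (mul_ne_zero hD.m0 nc) (by rw [hyc, h, zero_mul])
  obtain ⟨Y, l, s, hl, hY⟩ := hFPT F h2 m M0 ![ta, tb, tc] ![ya, yb, yc] hD.m0 hD.mon0 hD.deg0
    (by
      intro i j hij
      fin_cases i <;> fin_cases j
      · rfl
      · exact absurd hij hab
      · exact absurd hij hac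
      · exact absurd hij.symm hab
      · rfl
      · exact absurd hij hbc
      · exact absurd hij.symm hac
      · exact absurd hij.symm hbc
      · rfl)
    (by
      intro i
      fin_cases i
      · exact ⟨nya, by rw [pow_two]; exact hya⟩
      · exact ⟨nyb, by rw [pow_two]; exact hyb⟩
      · exact ⟨nyc, by rw [pow_two]; exact hyc⟩)
  have hY' : Y ^ 2 - C m * M0 = C l * ((X - C ta) * (X - C tb) * (X - C tc) * (X - C s)) := hY
  have sqs : IsSquare (m * eval s M0) := by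
    refine ⟨eval s Y, ?_⟩
    have h := congrArg (eval s) hY'
    rw [eval_sub, eval_pow, eval_mul, eval_C, eval_mul, eval_mul (q := X - C s),
      show eval s (X - C s) = 0 by rw [eval_sub, eval_X, eval_C, sub_self], mul_zero, mul_zero,
      sub_eq_zero] at h
    rw [← h, pow_two]
  obtain ⟨rs1, rs2, fs⟩ := fln s sqs
  obtain ⟨-, z1⟩ := hNTR F hF R1 (C m * M0) Y _ l hD.monR1 sR1 cR1 hD.ram1 n1 hl hY'
  obtain ⟨-, z2⟩ := hNTR F hF R2 (C m * M0) Y _ l hD.monR2 sR2 cR2 hD.ram2 n2 hl hY'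
  have s1 := four_sum v1 q1 a1 ta tb tc s ra1 rb1 rc1 rs1 z1
  have s2 := four_sum v1 q2 a2 ta tb tc s ra2 rb2 rc2 rs2 z2
  refine fs ⟨?_, ?_⟩
  · rw [c1a, zero_add, v2 _ _ (i1 _ (cop_lin rb1)) (i1 _ (cop_lin rc1)) c1b c1c,
      v1 _ (i1 _ (cop_lin rc1)), zero_add] at s1
    exact s1
  · rw [c2b, add_zero, v2 _ _ (i2 _ (cop_lin ra2)) (i2 _ (cop_lin rc2)) c2a c2c,
      v1 _ (i2 _ (cop_lin rc2)), zero_add] at s2
    exact s2

end Pool.Agent.H49.WT
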