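import Pool.Agent.H63.WT.TA

/-!
# Helper lemmas: equivalences of index types, trace forms modulo irreducible polynomials
-/

set_option autoImplicit false

open Polynomial Matrix Pool.Agent.H63.WT

namespace Pool.Agent.H49.WT

/-- the class does not depend on the enumeration of the index type -/
theorem cls_sub (hCLS : T_CLS) {F : Type} [Field F] (h2 : (2 : F) ≠ 0) {ι κ : Type} [Fintype ι]
    [DecidableEq ι] [Fintype κ] [DecidableEq κ] (e : κ ≃ ι) (A : Matrix ι ι F) (hA : SN A) :
    SN (A.submatrix e e) ∧ cls (A.submatrix e e) = cls A := by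
  have hUV : (1 : Matrix ι ι F).submatrix (Equiv.refl ι) e *
      (1 : Matrix ι ι F).submatrix e (Equiv.refl ι) = 1 := by
    rw [Matrix.submatrix_mul_equiv, Matrix.one_mul]
    rfl
  have hVU : (1 : Matrix ι ι F).submatrix e (Equiv.refl ι) *
      (1 : Matrix ι ι F).submatrix (Equiv.refl ι) e = 1 := by
    rw [Matrix.submatrix_mul_equiv, Matrix.one_mul, Matrix.submatrix_one_equiv]
  have h := (hCLS F h2).2.2.1 ι κ A _ _ hA hUV hVU
  have hE : ((1 : Matrix ι ι F).submatrix (Equiv.refl ι) e)ᵀ * A *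
      (1 : Matrix ι ι F).submatrix (Equiv.refl ι) e = A.submatrix e e := by
    have h1 : ((1 : Matrix ι ι F).submatrix (Equiv.refl ι) e)ᵀ =
        (1 : Matrix ι ι F).submatrix e (Equiv.refl ι) := by
      rw [Matrix.transpose_submatrix, Matrix.transpose_one]
    have h3 : A = A.submatrix (Equiv.refl ι) (Equiv.refl ι) := rfl
    rw [h1]
    conv_lhs => rw [h3]
    rw [Matrix.submatrix_mul_equiv, Matrix.submatrix_mul_equiv, Matrix.one_mul, Matrix.mul_one]
  rw [hE] at h
  exact h

theorem sn_one {F : Type} [Field F] {a : F} (ha : a ≠ 0) :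
    SN (fun _ _ : Fin 1 => a : Matrix (Fin 1) (Fin 1) F) := by
  refine ⟨?_, ?_⟩
  · ext i j
    rfl
  · rw [Matrix.det_fin_one]
    exact ha

theorem two_ne {F E : Type} [Field F] [Field E] [Algebra F E] (h2 : (2 : F) ≠ 0) :
    (2 : E) ≠ 0 := by
  intro h
  apply h2
  apply (algebraMap F E).injective
  rw [map_zero, map_ofNat]
  exact h

section irr

variable {F : Type} [Field F] (p : F[X]) (hp : p.Monic) [Fact (Irreducible p)]

/-- the functional: the top coefficient of the remainder -/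
noncomputable def top : AdjoinRoot p →ₗ[F] F :=
  (lcoeff F (p.natDegree - 1)).comp (AdjoinRoot.modByMonicHom hp)

theorem top_mk (g : F[X]) :
    top p hp (AdjoinRoot.mk p g) = Pool.Agent.H34.N6.lam p g := by
  unfold top Pool.Agent.H34.N6.lam
  rw [LinearMap.comp_apply, AdjoinRoot.modByMonicHom_mk, lcoeff_apply]

theorem top_ne : top p hp ≠ 0 := by
  intro h
  have h1 := top_mk p hp (X ^ (p.natDegree - 1))
  rw [h, LinearMap.zero_apply] at h1
  unfold Pool.Agent.H34.N6.lam at h1
  have hd : 0 < p.natDegree := (Fact.out : Irreducible p).natDegree_pos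
  have hlt : (X ^ (p.natDegree - 1) : F[X]).degree < p.degree := by
    rw [degree_X_pow, degree_eq_natDegree hp.ne_zero]
    exact_mod_cast Nat.sub_lt hd Nat.one_pos
  rw [(modByMonic_eq_self_iff hp).mpr hlt, coeff_X_pow, if_pos rfl] at h1
  exact zero_ne_one h1

/-- the power basis -/
noncomputable def bas : Module.Basis (Fin p.natDegree) F (AdjoinRoot p) :=
  AdjoinRoot.powerBasisAux' hp

theorem bas_apply (i : Fin p.natDegree) :
    bas p hp i = AdjoinRoot.mk p (X ^ (i : ℕ)) := by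
  have h := (AdjoinRoot.powerBasis' hp).basis_eq_pow i
  rw [map_pow, AdjoinRoot.mk_X]
  exact h

theorem trm_gm (h : F[X]) : (trm (top p hp) (bas p hp)
    (fun _ _ : Fin 1 => AdjoinRoot.mk p h : Matrix (Fin 1) (Fin 1) (AdjoinRoot p))).submatrix
    (Equiv.uniqueProd (Fin p.natDegree) (Fin 1)).symm
    (Equiv.uniqueProd (Fin p.natDegree) (Fin 1)).symm = gm p h := by
  ext i j
  rw [Matrix.submatrix_apply]
  unfold trm gm
  rw [← top_mk p hp]
  show top p hp (AdjoinRoot.mk p h * (bas p hp i * bas p hp j)) = _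
  rw [bas_apply, bas_apply, ← map_mul, ← map_mul, ← pow_add]

/-- the transfer computes the trace forms -/
theorem tr_on (hCLS : T_CLS) (h2 : (2 : F) ≠ 0) (f : WG (AdjoinRoot p) →+ WG F)
    (hf : IsTr (top p hp) (bas p hp) f) (h : F[X]) (hh : AdjoinRoot.mk p h ≠ 0) :
    f (on (AdjoinRoot.mk p h)) = S p h := by
  obtain ⟨h1, h3⟩ := hf (Fin 1) _ (sn_one hh)
  unfold on
  rw [h3, ← (cls_sub hCLS h2 (Equiv.uniqueProd (Fin p.natDegree) (Fin 1)).symm _ h1).2,
    trm_gm]
  rfl

theorem mk_ne {h : F[X]} (hh : IsCoprime p h) : AdjoinRoot.mk p h ≠ 0 := by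
  intro h0
  rw [AdjoinRoot.mk_eq_zero] at h0
  exact (Fact.out : Irreducible p).not_isUnit (hh.isUnit_of_dvd' dvd_rfl h0)

/-- the transfer exists -/
theorem ex_tr (hTRH : T_TRH) (h2 : (2 : F) ≠ 0) : ∃ f : WG (AdjoinRoot p) →+ WG F,
    IsTr (top p hp) (bas p hp) f :=
  hTRH F (AdjoinRoot p) h2 p.natDegree (bas p hp) (top p hp) (top_ne p hp)

end irr

/-- the class of the Pfister form scaled -/
theorem pf_scaled (hSCL : T_SCL) (hPFI : T_PFI) (hONE : T_ONE) {E : Type} [Field E]
    (h2 : (2 : E) ≠ 0) (hN : Pool.Agent.H32.QC.NI E) (hn : 2 < Pool.Agent.H32.QC.nsq E) {a b c : E}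
    (ha : a ≠ 0) (hb : b ≠ 0) (hc : c ≠ 0) :
    on c - on (c * a) - on (c * b) + on (c * (a * b)) = pf a b := by
  obtain ⟨h1, h3, h4, h5⟩ := hONE E h2
  have hd : ∀ e : E, e ≠ 0 → cls (Matrix.diagonal ![e, -(e * a), -(e * b), e * (a * b)]) =
      on e - on (e * a) - on (e * b) + on (e * (a * b)) := by
    intro e he
    rw [h4 (Fin 4) _ (by
      intro i
      fin_cases i
      · exact he
      · exact neg_ne_zero.mpr (mul_ne_zero he ha)
      · exact neg_ne_zero.mpr (mul_ne_zero he hb)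
      · exact mul_ne_zero he (mul_ne_zero ha hb)), Fin.sum_univ_four]
    show on e + on (-(e * a)) + on (-(e * b)) + on (e * (a * b)) = _
    rw [h3 _ (mul_ne_zero he ha), h3 _ (mul_ne_zero he hb)]
    abel
  have hs : SN (Matrix.diagonal ![(1 : E), -(1 * a), -(1 * b), 1 * (a * b)]) := by
    refine ⟨Matrix.isSymm_diagonal _, ?_⟩
    rw [Matrix.det_diagonal, Fin.prod_univ_four]
    show (1 : E) * -(1 * a) * -(1 * b) * (1 * (a * b)) ≠ 0
    rw [one_mul, one_mul, one_mul, one_mul]
    exact mul_ne_zero (mul_ne_zero (neg_ne_zero.mpr ha) (neg_ne_zero.mpr hb)) (mul_ne_zero ha hb)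
  have h1' : cls (Matrix.diagonal ![(1 : E), -(1 * a), -(1 * b), 1 * (a * b)]) = pf a b := by
    rw [hd 1 one_ne_zero, one_mul, one_mul, one_mul]
    rfl
  have hI : I2 (cls (Matrix.diagonal ![(1 : E), -(1 * a), -(1 * b), 1 * (a * b)])) := by
    rw [h1']
    exact (hPFI E h2 a b ha hb).1
  have key := (hSCL E h2 hN hn c hc).1 (Fin 4) _ hs hI
  rw [h1', ← Matrix.diagonal_smul] at key
  have hv : c • ![(1 : E), -(1 * a), -(1 * b), 1 * (a * b)] =
      ![c, -(c * a), -(c * b), c * (a * b)] := by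
    ext i
    fin_cases i
    · exact mul_one c
    · show c * -(1 * a) = -(c * a)
      ring
    · show c * -(1 * b) = -(c * b)
      ring
    · show c * (1 * (a * b)) = c * (a * b)
      ring
  rw [hv, hd c hc] at key
  exact key

end Pool.Agent.H49.WT
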