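import Pool.Agent.H63.WT.TC
import Pool.Agent.H49.WT.Lib

/-!
# Row BCS: base change of trace forms
-/

set_option autoImplicit false

open Polynomial Matrix Pool.Agent.H63.WT

namespace Pool.Agent.H49.WT

theorem gm_sn (hGDT : T_GDT) {F : Type} [Field F] {A h : F[X]} (hA : A.Monic)
    (hc : IsCoprime A h) : SN (gm A h) :=
  ⟨(hGDT F A hA).2.1 h, ((hGDT F A hA).2.2.1 h).mpr hc⟩

theorem pf_BCS (hGMM : T_GMM) (hCLS : T_CLS) (hGDT : T_GDT) : T_BCS := by
  intro F E _ _ _ h2 f hf A h hA hc
  obtain ⟨-, -, e, he⟩ := hGMM F E (algebraMap F E) A h hA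
  have hc' : IsCoprime (A.map (algebraMap F E)) (h.map (algebraMap F E)) :=
    hc.map (mapRingHom (algebraMap F E))
  have hs := gm_sn hGDT (hA.map (algebraMap F E)) hc'
  have h1 : gm (A.map (algebraMap F E)) (h.map (algebraMap F E)) =
      ((gm A h).map (algebraMap F E)).submatrix (finCongr e) (finCongr e) := by
    ext i j
    rw [he i j]
    rfl
  have h3 : (gm A h).map (algebraMap F E) =
      (gm (A.map (algebraMap F E)) (h.map (algebraMap F E))).submatrix (finCongr e).symm
        (finCongr e).symm := by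
    rw [h1, Matrix.submatrix_submatrix, Equiv.self_comp_symm, Matrix.submatrix_id_id]
  unfold S
  rw [hf _ _ (gm_sn hGDT hA hc), h3]
  exact (cls_sub hCLS (two_ne (E := E) h2) (finCongr e).symm _ hs).2

end Pool.Agent.H49.WT
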