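import Pool.Agent.H63.WT.TB

/-!
# Rows EU1, EU2, EU8: Euler identities
-/

set_option autoImplicit false

open Polynomial Matrix Pool.Agent.H63.WT

namespace Pool.Agent.H49.WT

theorem euC_cop {F : Type} [Field F] (A : F[X]) (m : F) (hm : m ≠ 0) : IsCoprime A (C m) :=
  isCoprime_of_right_unit (A := A) hm
where
  isCoprime_of_right_unit {A : F[X]} (hm : m ≠ 0) : IsCoprime A (C m) :=
    ⟨0, C m⁻¹, by rw [zero_mul, zero_add, ← C_mul, inv_mul_cancel₀ hm, C_1]⟩

theorem pf_EU1 (hSCR : T_SCR) (hSEU : T_SEU) : T_EU1 := by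
  intro F _ h2 m M0 A hm hM hd hA hc
  have h1 := hSCR F h2 A M0 (C m) hA hM hc (euC_cop _ m hm)
  have h3 := hSEU F h2 (A * M0) m (hA.mul hM) hm
  have hdeg : (A * M0).natDegree = A.natDegree + 4 := by
    rw [hA.natDegree_mul hM, hd]
  have he : Even (A * M0).natDegree ↔ Even A.natDegree := by
    rw [hdeg, Nat.even_add]
    constructor
    · intro h
      exact h.mpr (by decide)
    · intro h
      exact ⟨fun _ => by decide, fun _ => h⟩
  unfold G
  rw [← h1, h3]
  by_cases h : Even A.natDegree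
  · rw [if_pos h, if_pos (he.mpr h)]
  · rw [if_neg h, if_neg (fun h' => h (he.mp h'))]

theorem pf_EU2 (hSCR : T_SCR) (hSEU : T_SEU) : T_EU2 := by
  intro F _ h2 m M0 A B hm hM hd hA hB hAB hAM hBM
  have h1 := pf_EU1 hSCR hSEU F h2 m M0 (A * B) hm hM hd (hA.mul hB) (hAM.mul_left hBM)
  have hcm : IsCoprime (A * B) (C m * M0) :=
    (euC_cop (A * B) m hm).mul_right (hAM.mul_left hBM)
  have h3 := hSCR F h2 A B (C m * M0) hA hB hAB hcm
  have hdeg : (A * B).natDegree = A.natDegree + B.natDegree := hA.natDegree_mul hB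
  rw [hdeg, h3] at h1
  refine ⟨h1, ?_⟩
  have h4 := hSCR F h2 A B (C 1) hA hB hAB (euC_cop _ 1 one_ne_zero)
  have h5 := hSEU F h2 (A * B) 1 (hA.mul hB) one_ne_zero
  rw [hdeg] at h5
  rw [h4, C_1, one_mul, one_mul] at h5
  exact h5

theorem pf_EU8 (hSCR : T_SCR) (_hSEU : T_SEU) : T_EU8 := by
  intro F _ h2 A B M hA hB hAB hM
  have h1 := hSCR F h2 A B M hA hB hAB hM
  have h3 := hSCR F h2 A B 1 hA hB hAB isCoprime_one_right
  rw [one_mul, one_mul] at h3
  unfold qc
  rw [h1, h3]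
  abel

end Pool.Agent.H49.WT
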