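import Pool.Agent.H63.WT.TB

/-!
# Rows EU3, EU4: Euler identities, even parts
-/

set_option autoImplicit false

open Polynomial Matrix Pool.Agent.H63.WT

namespace Pool.Agent.H49.WT

theorem pf_EU3 (hEU1 : T_EU1) (_hEU2 : T_EU2) (hSEU : T_SEU) (_hSSQ : T_SSQ) : T_EU3 := by
  intro F _ h2 m M0 A B hm hM hd hA hB hAB hc hev
  have h1 := hEU1 F h2 m M0 A hm hM hd hA hc.of_mul_left_left
  have h3 := hSEU F h2 A 1 hA one_ne_zero
  rw [if_pos hev] at h1 h3
  rw [C_1] at h3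
  unfold qc sy
  rw [eq_neg_of_add_eq_zero_left h1, h3]
  abel

theorem pf_EU4 (hEU1 : T_EU1) (hEU2 : T_EU2) (hSEU : T_SEU) (hSSQ : T_SSQ) : T_EU4 := by
  intro F _ h2 m M0 A T hm hM hd hA hT hAT hc hevA hevT hsq
  have h1 := hEU1 F h2 m M0 A hm hM hd hA hc.of_mul_left_left
  have h3 := hSEU F h2 A 1 hA one_ne_zero
  rw [if_pos hevA] at h1 h3
  rw [C_1] at h3
  obtain ⟨h4, h5⟩ := hEU2 F h2 m M0 A T hm hM hd hA hT hAT hc.of_mul_left_left hc.of_mul_left_right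
  rw [if_pos (hevA.add hevT)] at h4 h5
  obtain ⟨s, hs⟩ := hsq
  have hcm : IsCoprime T (C m) := ⟨0, C m⁻¹, by
    rw [zero_mul, zero_add, ← C_mul, inv_mul_cancel₀ hm, C_1]⟩
  have h6 : S T (C m * M0 * A) = S T A := by
    refine (hSSQ F h2 T hT).1 _ _ s ((hcm.mul_right hc.of_mul_left_right).mul_right hAT.symm)
      hAT.symm ?_
    have : C m * M0 * A - A * s ^ 2 = (C m * M0 - s ^ 2) * A := by ring
    rw [this]
    exact hs.mul_right A
  rw [h6] at h4
  unfold sy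
  have h7 : S A (C m * M0 * T) = -S T A - G m M0 (A * T) := by
    rw [eq_sub_iff_add_eq, eq_neg_iff_add_eq_zero, ← h4]
    abel
  have h8 : S A T = -S T A := eq_neg_of_add_eq_zero_left h5
  rw [h3, h7, h8, eq_neg_of_add_eq_zero_left h1]
  abel

end Pool.Agent.H49.WT
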