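import Pool.Agent.H63.WT.TD

/-!
# Row EXF: the sign on the Witt group of a nonarchimedean local field
-/

set_option autoImplicit false

open Polynomial Matrix Pool.Agent.H63.WT

namespace Pool.Agent.H49.WT

open Classical in
theorem pf_EXF (hLAL : T_LAL) (hIV : T_IV) (hPFI : T_PFI) (_hI2A : T_I2A) : T_EXF := by
  intro F _ _ _ _
  have hF : LA F := hLAL F
  have h2 : (2 : F) ≠ 0 := hF.1
  obtain ⟨hN, hn⟩ := hF.2 F inferInstance
  obtain ⟨v1, v2, -, v4⟩ := hIV F h2 hN hn
  refine ⟨⟨fun x => if x = 0 then 1 else -1, ?_, ?_, ?_⟩, ?_⟩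
  · intro x
    by_cases h : x = 0
    · exact Or.inl (if_pos h)
    · exact Or.inr (if_neg h)
  · intro x y hx hy
    show (if x + y = 0 then (1 : ℤ) else -1) = (if x = 0 then 1 else -1) * if y = 0 then 1 else -1
    by_cases h0 : x = 0
    · rw [h0, zero_add, if_pos rfl, one_mul]
    · by_cases h1 : y = 0
      · rw [h1, add_zero, if_pos rfl, mul_one]
      · have hxy := v2 x y hx hy h0 h1
        rw [← hxy, v1 x hx, if_pos rfl, if_neg h0]
        norm_num
  · intro a b ha hb
    show (if pf a b = 0 then (1 : ℤ) else -1) = Pool.Agent.H32.QC.hil a b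
    unfold Pool.Agent.H32.QC.hil
    by_cases h : Pool.Agent.H32.QC.Sol a b
    · rw [if_pos h, if_pos ((hPFI F h2 a b ha hb).2.mpr h)]
    · rw [if_neg h, if_neg (fun h' => h ((hPFI F h2 a b ha hb).2.mp h'))]
  · intro e he x hx
    obtain ⟨a, b, ha, hb, rfl⟩ := v4 x hx
    have h := he.pfi a b ha hb
    rw [(hPFI F h2 a b ha hb).2]
    show e (on 1 - on a - on b + on (a * b)) = 1 ↔ _
    rw [h]
    unfold Pool.Agent.H32.QC.hil
    by_cases hs : Pool.Agent.H32.QC.Sol a b
    · rw [if_pos hs]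
      exact ⟨fun _ => hs, fun _ => rfl⟩
    · rw [if_neg hs]
      exact ⟨fun h' => absurd h' (by norm_num), fun h' => absurd h' hs⟩

end Pool.Agent.H49.WT
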