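import Pool.Agent.H63.WT.TD

/-!
# Row PHI: the matrix of the constant
-/

set_option autoImplicit false

open Polynomial Matrix Pool.Agent.H63.WT

namespace Pool.Agent.H49.WT

theorem sn_blocks {F ι κ : Type} [Field F] [Fintype ι] [DecidableEq ι] [Fintype κ]
    [DecidableEq κ] {A : Matrix ι ι F} {B : Matrix κ κ F} (hA : SN A) (hB : SN B) :
    SN (fromBlocks A 0 0 B) := by
  refine ⟨Matrix.IsSymm.fromBlocks hA.1 Matrix.transpose_zero hB.1, ?_⟩
  rw [Matrix.det_fromBlocks_zero₂₁]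
  exact mul_ne_zero hA.2 hB.2

theorem sn_neg {F ι : Type} [Field F] [Fintype ι] [DecidableEq ι] {A : Matrix ι ι F}
    (hA : SN A) : SN (-A) := by
  refine ⟨?_, ?_⟩
  · unfold Matrix.IsSymm
    rw [Matrix.transpose_neg, hA.1]
  · rw [Matrix.det_neg]
    exact mul_ne_zero (pow_ne_zero _ (neg_ne_zero.mpr one_ne_zero)) hA.2

theorem pf_PHI (hCLS : T_CLS) (hGDT : T_GDT) (hNRS : T_NRS) (hI2D : T_I2D) (_hSSQ : T_SSQ) :
    T_PHI := by
  intro F _ h2 P1 P2 D hP hc hD
  obtain ⟨g1, g2, g3, g4, -, -, -⟩ := hGDT F P1 hP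
  have hs1 : SN (gm P1 (D * P2)) := ⟨g2 _, (g3 _).mpr (hD.mul_right hc)⟩
  have hs2 : SN (gm P1 P2) := ⟨g2 _, (g3 _).mpr hc⟩
  have hs : SN (Phi P1 P2 D) := sn_blocks hs1 (sn_neg hs2)
  refine ⟨hs, ?_, ?_⟩
  · unfold Phi S
    rw [(hCLS F h2).2.1 _ _ _ _ hs1 (sn_neg hs2), (hCLS F h2).2.2.2.1 _ _ hs2, sub_eq_add_neg]
  · intro hr
    have hsq : IsSquare ((-1) ^ P1.natDegree * (Phi P1 P2 D).det) := by
      obtain ⟨r, hr'⟩ := (hNRS F P1 D hP hD).mp hr
      have hm := g4 D P2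
      have hg : (gm P1 1).det * (gm P1 1).det = 1 := by
        rw [g1, ← mul_pow, neg_one_mul, neg_neg, one_pow]
      have hdet : (-1) ^ P1.natDegree * (Phi P1 P2 D).det =
          (gm P1 (D * P2)).det * (gm P1 P2).det := by
        unfold Phi
        rw [Matrix.det_fromBlocks_zero₂₁, Matrix.det_neg, Fintype.card_fin]
        have : ((-1 : F) ^ P1.natDegree) * (-1) ^ P1.natDegree = 1 := by
          rw [← mul_pow, neg_one_mul, neg_neg, one_pow]
        calc (-1 : F) ^ P1.natDegree * ((gm P1 (D * P2)).det *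
            ((-1) ^ P1.natDegree * (gm P1 P2).det))
            = ((-1 : F) ^ P1.natDegree * (-1) ^ P1.natDegree) *
              ((gm P1 (D * P2)).det * (gm P1 P2).det) := by ring
          _ = _ := by rw [this, one_mul]
      refine ⟨r * nn P1 P2, ?_⟩
      rw [hdet]
      calc (gm P1 (D * P2)).det * (gm P1 P2).det
          = ((gm P1 (D * P2)).det * (gm P1 1).det) * ((gm P1 P2).det * (gm P1 1).det) := by
            rw [show (gm P1 (D * P2)).det * (gm P1 1).det * ((gm P1 P2).det * (gm P1 1).det) =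
              (gm P1 (D * P2)).det * (gm P1 P2).det * ((gm P1 1).det * (gm P1 1).det) by ring,
              hg, mul_one]
        _ = nn P1 (D * P2) * nn P1 P2 := rfl
        _ = (r * nn P1 P2) * (r * nn P1 P2) := by
            rw [hm, hr']
            ring
    refine ⟨hsq, ?_⟩
    exact (hI2D F h2 _ (Phi P1 P2 D) P1.natDegree hs (by
      rw [Fintype.card_sum, Fintype.card_fin, two_mul])).mpr hsq

end Pool.Agent.H49.WT
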