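import Pool.Agent.H63.WT.TD

/-!
# Row SPC: the criterion with the two parts
-/

set_option autoImplicit false

open Polynomial Matrix Pool.Agent.H63.WT

namespace Pool.Agent.H49.WT

theorem pf_SPC (hSPT : T_SPT) (hEU8 : T_EU8) (hSYF : T_SYF) (hCAD : T_CAD) (hSSQ : T_SSQ)
    (hNSQ : T_NSQ) (hNNR : T_NNR) (_hGDT : T_GDT) : T_SPC := by
  intro F _ _ hF P1 P2 R1 R2 U1 U2 M D z T hP1 hP2 hR1 hR2 hU1 hU2 h1 h2 hsep hdeg hM hq1 hq2
    hn1 hn2 hD hz hdvd hT hTi hTc hcc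
  have h2F : (2 : F) ≠ 0 := hF.1
  have hP : (P1 * P2).Monic := hP1.mul hP2
  have hnM : IsSquare (nn (P1 * P2) M) := by
    rw [(hNNR F P1 P2 hP1 hP2).1]
    exact hn1.mul hn2
  have hnD : IsSquare (nn (P1 * P2) D) :=
    (hNSQ F (P1 * P2) M D z hP hM hD hdvd).mp hnM
  have hd7 : (P1 * P2).natDegree = 7 := by
    rw [hP1.natDegree_mul hP2, hdeg]
  rw [hSPT F hF (P1 * P2) D T hP hsep hd7 hD hnD hT hTi hTc]
  have e1 : S (P1 * P2) M = S (P1 * P2) D := (hSSQ F h2F _ hP).1 M D z hM hD hdvd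
  have e2 : S (P1 * P2) (M * T) = S (P1 * P2) (D * T) := by
    refine (hSSQ F h2F _ hP).1 _ _ z (hM.mul_right hTc.symm) (hD.mul_right hTc.symm) ?_
    have : M * T - D * T * z ^ 2 = (M - D * z ^ 2) * T := by ring
    rw [this]
    exact hdvd.mul_right T
  have e3 : sy (P1 * P2) D T = sy (P1 * P2) M T := by
    unfold sy
    rw [e1, e2]
  have e4 := hSYF F hF P1 P2 M T hP1 hP2 hsep hM hTc.symm
  have hc12 : IsCoprime P1 P2 := hsep.isCoprime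
  have e5 := (hCAD F hF P1 P2 R1 U1 M hP1 hP2 hR1 hU1 h1 hsep hM hq1 hn1).2.2.2 T
    hTc.symm.of_mul_left_left
  have e6 := (hCAD F hF P2 P1 R2 U2 M hP2 hP1 hR2 hU2 h2 (by rwa [mul_comm]) (by rwa [mul_comm])
    hq2 hn2).2.2.2 T hTc.symm.of_mul_left_right
  have e7 := hEU8 F h2F P1 P2 M hP1 hP2 hc12 hM
  rw [e3, e4, e5, e6, ← e1, ← e7, smul_add]
  unfold cc at hcc
  rw [← hcc]
  abel

end Pool.Agent.H49.WT
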