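import Pool.Agent.H49.WT.Lib

/-!
# Row SYF: products of moduli
-/

set_option autoImplicit false

open Polynomial Matrix Pool.Agent.H63.WT

namespace Pool.Agent.H49.WT

/-- the twisted symbol -/
noncomputable def tw {F : Type} [Field F] (A c a b : F[X]) : WG F :=
  S A c - S A (c * a) - S A (c * b) + S A (c * (a * b))

theorem tw_one {F : Type} [Field F] (A a b : F[X]) : tw A 1 a b = sy A a b := by
  unfold tw sy
  rw [one_mul, one_mul, one_mul]

theorem tw_irr (hTRH : T_TRH) (hSCL : T_SCL) (hCLS : T_CLS) (hPFI : T_PFI) (hONE : T_ONE)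
    {F : Type} [Field F] [CharZero F] (hF : LA F) (p : F[X]) (hp : p.Monic) (hi : Irreducible p)
    (c a b : F[X]) (hc : IsCoprime p c) (ha : IsCoprime p a) (hb : IsCoprime p b) :
    tw p c a b = tw p 1 a b := by
  haveI : Fact (Irreducible p) := ⟨hi⟩
  have h2 : (2 : F) ≠ 0 := hF.1
  haveI : FiniteDimensional F (AdjoinRoot p) := hp.finite_adjoinRoot
  obtain ⟨hN, hn⟩ := hF.2 (AdjoinRoot p) inferInstance
  obtain ⟨f, hf⟩ := ex_tr p hp hTRH h2
  have key : ∀ e : F[X], IsCoprime p e → tw p e a b =
      f (pf (AdjoinRoot.mk p a) (AdjoinRoot.mk p b)) := by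
    intro e he
    rw [← pf_scaled hSCL hPFI hONE (two_ne (E := AdjoinRoot p) h2) hN hn (mk_ne p ha) (mk_ne p hb)
      (mk_ne p he), map_add, map_sub, map_sub, ← map_mul, ← map_mul, ← map_mul, ← map_mul,
      tr_on p hp hCLS h2 f hf _ (mk_ne p he),
      tr_on p hp hCLS h2 f hf _ (mk_ne p (he.mul_right ha)),
      tr_on p hp hCLS h2 f hf _ (mk_ne p (he.mul_right hb)),
      tr_on p hp hCLS h2 f hf _ (mk_ne p (he.mul_right (ha.mul_right hb)))]
    rfl
  rw [key c hc, key 1 isCoprime_one_right]

theorem tw_mul (hSCR : T_SCR) {F : Type} [Field F] (h2 : (2 : F) ≠ 0) (A B c a b : F[X])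
    (hA : A.Monic) (hB : B.Monic) (hAB : IsCoprime A B) (hc : IsCoprime (A * B) c)
    (ha : IsCoprime (A * B) a) (hb : IsCoprime (A * B) b) :
    tw (A * B) c a b = tw A (c * B) a b + tw B (c * A) a b := by
  unfold tw
  rw [hSCR F h2 A B _ hA hB hAB hc, hSCR F h2 A B _ hA hB hAB (hc.mul_right ha),
    hSCR F h2 A B _ hA hB hAB (hc.mul_right hb),
    hSCR F h2 A B _ hA hB hAB (hc.mul_right (ha.mul_right hb)),
    show c * a * B = c * B * a by ring, show c * b * B = c * B * b by ring,
    show c * (a * b) * B = c * B * (a * b) by ring, show c * a * A = c * A * a by ring,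
    show c * b * A = c * A * b by ring, show c * (a * b) * A = c * A * (a * b) by ring]
  abel

theorem tw_indep (hSCR : T_SCR) (hTRH : T_TRH) (hSCL : T_SCL) (hCLS : T_CLS) (hPFI : T_PFI)
    (hONE : T_ONE) {F : Type} [Field F] [CharZero F] (hF : LA F) (a b : F[X]) : ∀ (n : ℕ)
    (A : F[X]), A.natDegree = n → A.Monic → A.Separable → IsCoprime A a → IsCoprime A b →
    ∀ c : F[X], IsCoprime A c → tw A c a b = tw A 1 a b := by
  intro n
  induction n using Nat.strong_induction_on with
  | _ n ih =>
    intro A hn hA hsep ha hb c hc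
    have h2 : (2 : F) ≠ 0 := hF.1
    by_cases h0 : A.natDegree = 0
    · have h1 : A = 1 := eq_one_of_monic_natDegree_zero hA h0
      subst h1
      have hS : ∀ h h' : F[X], S 1 h = S 1 h' := by
        intro h h'
        unfold S
        have : gm (1 : F[X]) h = gm 1 h' := by
          ext i j
          exact (Fin.cast natDegree_one i).elim0
        rw [this]
      unfold tw
      rw [hS c 1, hS (c * a) (1 * a), hS (c * b) (1 * b), hS (c * (a * b)) (1 * (a * b))]
    · obtain ⟨p, hpm, hpi, q, rfl⟩ := exists_monic_irreducible_factor A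
        (not_isUnit_of_natDegree_pos A (Nat.pos_of_ne_zero h0))
      have hq : q.Monic := hpm.of_mul_monic_left hA
      have hdeg : (p * q).natDegree = p.natDegree + q.natDegree := hpm.natDegree_mul hq
      have hpq : IsCoprime p q := hsep.isCoprime
      have hlt : q.natDegree < n := by
        have := hpi.natDegree_pos
        omega
      have key : ∀ e : F[X], IsCoprime (p * q) e → tw (p * q) e a b =
          tw p 1 a b + tw q 1 a b := by
        intro e he
        rw [tw_mul hSCR h2 p q e a b hpm hq hpq he ha hb,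
          tw_irr hTRH hSCL hCLS hPFI hONE hF p hpm hpi (e * q) a b
            (he.of_mul_left_left.mul_right hpq) ha.of_mul_left_left hb.of_mul_left_left,
          ih q.natDegree hlt q rfl hq hsep.of_mul_right ha.of_mul_left_right
            hb.of_mul_left_right (e * p) (he.of_mul_left_right.mul_right hpq.symm)]
      rw [key c hc, key 1 isCoprime_one_right]

theorem pf_SYF (hSCR : T_SCR) (_hSYH : T_SYH) (_hTR : T_TR) (hTRH : T_TRH) (hSCL : T_SCL)
    (_hLAE : T_LAE) (_hI2A : T_I2A) (hCLS : T_CLS) (hPFI : T_PFI) (hONE : T_ONE)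
    (_hGDT : T_GDT) : T_SYF := by
  intro F _ _ hF A B a b hA hB hsep ha hb
  have hAB : IsCoprime A B := hsep.isCoprime
  rw [← tw_one (A * B), tw_mul hSCR hF.1 A B 1 a b hA hB hAB isCoprime_one_right ha hb,
    tw_indep hSCR hTRH hSCL hCLS hPFI hONE hF a b _ A rfl hA hsep.of_mul_left
      ha.of_mul_left_left hb.of_mul_left_left _ (isCoprime_one_right.mul_right hAB),
    tw_indep hSCR hTRH hSCL hCLS hPFI hONE hF a b _ B rfl hB hsep.of_mul_right
      ha.of_mul_left_right hb.of_mul_left_right _ (isCoprime_one_right.mul_right hAB.symm),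
    tw_one, tw_one]

end Pool.Agent.H49.WT
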