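import Pool.Agent.H38.WT.Targets

/-!
# Board `wt_modules`, row SB: `C₂` as a sum over pairs of contracted vertices
-/

set_option autoImplicit false

noncomputable section

namespace Pool.Agent.H49.WT

open Pool.Agent.H38.WT

/-- Equality of indicators, for any decidability instances. -/
theorem ind_congr {P Q : Prop} {dP : Decidable P} {dQ : Decidable Q} (h : P ↔ Q) :
    (@ite ℕ P dP 1 0) = @ite ℕ Q dQ 1 0 := by
  by_cases hP : P
  · rw [if_pos hP, if_pos (h.mp hP)]
  · rw [if_neg hP, if_neg fun hQ => hP (h.mpr hQ)]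

open Classical in
/-- The cardinality of a subtype as a sum of indicators. -/
theorem ncard_ind {α : Type} [Fintype α] (P : α → Prop) :
    Nat.card {p // P p} = ∑ p : α, if P p then 1 else 0 := by
  rw [Nat.card_eq_fintype_card, Fintype.card_subtype, Finset.card_filter]

/-- Twice the binomial coefficient. -/
theorem two_choose (c : ℕ) : 2 * c.choose 2 = c * c - c := by
  rw [Nat.choose_two_right]
  have h : 2 * (c * (c - 1) / 2) = c * (c - 1) := Nat.two_mul_div_two_of_even
    (Nat.even_mul_pred_self c)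
  rw [h, Nat.mul_sub_one]

open Classical in
/-- Twice the number of pairs, as a sum of indicators. -/
theorem two_choose_card {α : Type} [Fintype α] (P : α → Prop) :
    2 * (Nat.card {p // P p}).choose 2 =
      ∑ p : α, ∑ q : α, if P p ∧ P q ∧ p ≠ q then 1 else 0 := by
  have h1 : Nat.card {p // P p} = (Finset.univ.filter P).card := by
    rw [Nat.card_eq_fintype_card, Fintype.card_subtype]
  have h2 : (Finset.univ.filter P).offDiag =
      Finset.univ.filter (fun q : α × α => P q.1 ∧ P q.2 ∧ q.1 ≠ q.2) := by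
    ext q
    simp [Finset.mem_offDiag]
  rw [two_choose, h1, ← Finset.offDiag_card, h2, Finset.card_filter, Fintype.sum_prod_type]

open Classical in
/-- The number of triples `(U, i, i')`. -/
def B {n : ℕ} (T : SimpleGraph (Fin n)) (x x' : Fin (n + 1)) : ℕ :=
  ∑ U : SimpleGraph (Fin (n + 1)), ∑ i : Fin n, ∑ i' : Fin n,
    if U.IsTree ∧ Disp1 T U x i ∧ Disp1 T U x' i' ∧ (x, i) ≠ (x', i') then 1 else 0

theorem B_self {n : ℕ} (T : SimpleGraph (Fin n)) (x : Fin (n + 1)) : B T x x = Sm T x := by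
  classical
  unfold B Sm
  rw [ncard_ind, Fintype.sum_prod_type]
  refine Finset.sum_congr rfl fun U _ => ?_
  rw [Fintype.sum_prod_type]
  refine Finset.sum_congr rfl fun i _ => Finset.sum_congr rfl fun i' _ => ?_
  have h : (U.IsTree ∧ Disp1 T U x i ∧ Disp1 T U x i' ∧ (x, i) ≠ (x, i')) ↔
      (U.IsTree ∧ i ≠ i' ∧ Disp1 T U x i ∧ Disp1 T U x i') := by
    constructor
    · rintro ⟨h1, h2, h3, h4⟩
      exact ⟨h1, fun h => h4 (by rw [h]), h2, h3⟩
    · rintro ⟨h1, h2, h3, h4⟩
      exact ⟨h1, h3, h4, fun h => h2 (Prod.mk.inj h).2⟩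
  exact ind_congr h

theorem B_ne {n : ℕ} (T : SimpleGraph (Fin n)) (x x' : Fin (n + 1)) (hx : x ≠ x') :
    B T x x' = Pr T x x' := by
  classical
  unfold B Pr
  rw [ncard_ind, Fintype.sum_prod_type]
  refine Finset.sum_congr rfl fun U _ => ?_
  rw [Fintype.sum_prod_type]
  refine Finset.sum_congr rfl fun i _ => Finset.sum_congr rfl fun i' _ => ?_
  have h : (U.IsTree ∧ Disp1 T U x i ∧ Disp1 T U x' i' ∧ (x, i) ≠ (x', i')) ↔
      (U.IsTree ∧ Disp1 T U x i ∧ Disp1 T U x' i') := by
    constructor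
    · rintro ⟨h1, h2, h3, h4⟩
      exact ⟨h1, h2, h3⟩
    · rintro ⟨h1, h2, h3⟩
      exact ⟨h1, h2, h3, fun h => hx (Prod.mk.inj h).1⟩
  exact ind_congr h

theorem B_symm {n : ℕ} (T : SimpleGraph (Fin n)) (x x' : Fin (n + 1)) : B T x x' = B T x' x := by
  classical
  unfold B
  refine Finset.sum_congr rfl fun U _ => ?_
  rw [Finset.sum_comm]
  refine Finset.sum_congr rfl fun i _ => Finset.sum_congr rfl fun i' _ => ?_
  have h : (U.IsTree ∧ Disp1 T U x i' ∧ Disp1 T U x' i ∧ (x, i') ≠ (x', i)) ↔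
      (U.IsTree ∧ Disp1 T U x' i ∧ Disp1 T U x i' ∧ (x', i) ≠ (x, i')) := by
    constructor
    · rintro ⟨h1, h2, h3, h4⟩
      exact ⟨h1, h3, h2, fun h => h4 h.symm⟩
    · rintro ⟨h1, h2, h3, h4⟩
      exact ⟨h1, h3, h2, fun h => h4 h.symm⟩
  exact ind_congr h

/-- A double sum over a linear order. -/
theorem sum_split {N : ℕ} (b : Fin N → Fin N → ℕ) (hb : ∀ x y, b x y = b y x) :
    ∑ x, ∑ y, b x y = ∑ x, b x x + 2 * ∑ x, ∑ y ∈ Finset.univ.filter (fun y => x < y), b x y := by
  have h1 : ∀ x, ∑ y, b x y = b x x + ∑ y ∈ Finset.univ.filter (fun y => x < y), b x y +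
      ∑ y ∈ Finset.univ.filter (fun y => y < x), b x y := by
    intro x
    rw [Finset.sum_filter, Finset.sum_filter]
    have h2 : b x x = ∑ y, if y = x then b x y else 0 := by
      simp
    rw [h2, ← Finset.sum_add_distrib, ← Finset.sum_add_distrib]
    refine Finset.sum_congr rfl fun y _ => ?_
    rcases lt_trichotomy x y with h | h | h
    · rw [if_neg h.ne', if_pos h, if_neg h.asymm]
      omega
    · subst h
      simp
    · rw [if_neg h.ne, if_neg h.asymm, if_pos h]
      omega
  have h3 : ∑ x, ∑ y ∈ Finset.univ.filter (fun y => y < x), b x y =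
      ∑ x, ∑ y ∈ Finset.univ.filter (fun y => x < y), b x y := by
    simp only [Finset.sum_filter]
    rw [Finset.sum_comm]
    refine Finset.sum_congr rfl fun x _ => Finset.sum_congr rfl fun y _ => ?_
    rw [hb]
  rw [Finset.sum_congr rfl fun x _ => h1 x, Finset.sum_add_distrib, Finset.sum_add_distrib, h3]
  omega

theorem pf_SB (h : T_SA) : T_SB := by
  classical
  intro n T
  have h1 : 2 * C2 T (n + 1) = ∑ x, ∑ x', B T x x' := by
    have h2 : ∀ U : SimpleGraph (Fin (n + 1)), (if U.IsTree then 2 * (cD T U).choose 2 else 0) =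
        ∑ x : Fin (n + 1), ∑ i : Fin n, ∑ x' : Fin (n + 1), ∑ i' : Fin n,
          if U.IsTree ∧ Disp1 T U x i ∧ Disp1 T U x' i' ∧ (x, i) ≠ (x', i') then 1 else 0 := by
      intro U
      by_cases hU : U.IsTree
      · rw [if_pos hU, h n T U, two_choose_card, Fintype.sum_prod_type]
        refine Finset.sum_congr rfl fun x _ => Finset.sum_congr rfl fun i _ => ?_
        rw [Fintype.sum_prod_type]
        refine Finset.sum_congr rfl fun x' _ => Finset.sum_congr rfl fun i' _ => ?_
        exact ind_congr ⟨fun h => ⟨hU, h⟩, fun h => h.2⟩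
      · rw [if_neg hU]
        simp only [hU, false_and, if_false, Finset.sum_const_zero]
    have h3 : 2 * C2 T (n + 1) =
        ∑ U : SimpleGraph (Fin (n + 1)), (if U.IsTree then 2 * (cD T U).choose 2 else 0) := by
      unfold C2 trees
      rw [Finset.mul_sum, Finset.sum_filter]
    rw [h3, Finset.sum_congr rfl fun U _ => h2 U, Finset.sum_comm]
    refine Finset.sum_congr rfl fun x _ => ?_
    have h4 : ∀ U : SimpleGraph (Fin (n + 1)),
        (∑ i : Fin n, ∑ x' : Fin (n + 1), ∑ i' : Fin n,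
          if U.IsTree ∧ Disp1 T U x i ∧ Disp1 T U x' i' ∧ (x, i) ≠ (x', i') then 1 else 0) =
        ∑ x' : Fin (n + 1), ∑ i : Fin n, ∑ i' : Fin n,
          if U.IsTree ∧ Disp1 T U x i ∧ Disp1 T U x' i' ∧ (x, i) ≠ (x', i') then 1 else 0 :=
      fun U => Finset.sum_comm
    rw [Finset.sum_congr rfl fun U _ => h4 U, Finset.sum_comm]
    rfl
  rw [h1, sum_split _ (B_symm T)]
  have h5 : ∀ x : Fin (n + 1), ∑ x' ∈ Finset.univ.filter (fun x' => x < x'), B T x x' =
      ∑ x' ∈ Finset.univ.filter (fun x' => x < x'), Pr T x x' := by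
    intro x
    refine Finset.sum_congr rfl fun x' hx' => ?_
    exact B_ne T x x' (Finset.mem_filter.mp hx').2.ne
  rw [Finset.sum_congr rfl fun x _ => h5 x, Finset.sum_congr rfl fun x _ => B_self T x]

end Pool.Agent.H49.WT
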